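import Mathlib
import Pool.Agent.H774R2.QTS.Defs
import Pool.Agent.H774R2.QSAT.Defs
import Pool.Agent.H774R2.QSAT.WDefs
import Pool.Agent.H774R2.QBIT.Defs

/-!
Blueprint: the statements of the independent tasks (not imported by anything).
-/

open Finset

namespace Pool.Agent.H774R2.QBIT

open Pool.Agent.H774R2.QTS (quad ker)
open Pool.Agent.H774R2.QSAT (nz)

/-- Task RK (Mathlib only). -/
theorem rank_count (a M t : ℕ) (hM : 2 ≤ M) (ht : t ≤ a) :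
    (univ.filter fun s : Fin a → Fin a → Fin M =>
      2 ^ t ≤ (univ.filter fun u : Fin a → ZMod 2 =>
        ∀ j, ∑ i, u i * (if (s j i).val = 0 then 1 else 0) = 0).card).card * M ^ (t * t) ≤
      2 ^ a * M ^ (a * a) * (M - 1) ^ (t * t) := by
  sorry

/-- Task SPARSE (uses the statement `rank_count` as hypothesis `hrk`). -/
theorem exists_sparse
    (hrk : ∀ a M t : ℕ, 2 ≤ M → t ≤ a →
      (univ.filter fun s : Fin a → Fin a → Fin M =>
        2 ^ t ≤ (univ.filter fun u : Fin a → ZMod 2 =>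
          ∀ j, ∑ i, u i * (if (s j i).val = 0 then 1 else 0) = 0).card).card * M ^ (t * t) ≤
        2 ^ a * M ^ (a * a) * (M - 1) ^ (t * t))
    (n a0 M lam : ℕ) (hM : 2 ≤ M) (ha0 : 1 ≤ a0) (ha : 16 * M * (lam + 1) ≤ a0)
    (hlam : 4 * n ≤ a0 * 2 ^ lam) :
    ∃ q : ℕ → ZMod 2, (nz n q).card * M ≤ n ^ 2 ∧
      ∀ a, a0 ≤ a → ∀ A B : Finset (Fin n), Disjoint A B → A.card = a → B.card = a →
        (ker q A B).card ≤ 2 ^ ((a + 1) / 2) := by
  sorry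

/-- Task BENC. -/
theorem bit_enc (b w B P m ℓ : ℕ) (q : ℕ → ZMod 2) (hb : 1 ≤ b) (hw : 1 ≤ w) (hB : 1 ≤ B)
    (hP : (nz (b * w) q).card ≤ P)
    (hm : 8 * P + B * b + 4 * B + 2 * (b * w) + 2 * (b * w * 2 ^ w) + 16 ≤ m) (hℓ : m ≤ 2 ^ ℓ) :
    ∃ (g : Fin (m * (3 * (ℓ + 1))) → Option (Fin B × Fin (b * w)))
      (cl : Fin (m * (3 * (ℓ + 1))) → ZMod 2 → Bool),
      (∀ p, ∃ j, g j = some p) ∧ ∀ x : Fin B → Fin (b * w) → ZMod 2,
        BitSat m ℓ (fun j => cl j ((g j).elim 0 fun p => x p.1 p.2)) ↔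
          ∃ i, quad q (x i) = 1 := by
  sorry

end Pool.Agent.H774R2.QBIT
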